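import Mathlib

/-! Definitions for `MP_0641e2_an`. -/

open Complex Set Filter Topology Metric

namespace Pool.Agent.Q7.OS

/-- `T_z(w) = (z - w) / (1 - z̄ w)`. -/
noncomputable def T (z w : ℂ) : ℂ := (z - w) / (1 - (starRingEnd ℂ) z * w)

/-- The hyperbolic distance `k(z, w)` of the unit disc; `k(0, z) = (1/2) log((1+|z|)/(1-|z|))`. -/
noncomputable def kD (z w : ℂ) : ℝ :=
  1 / 2 * Real.log ((1 + ‖T z w‖) / (1 - ‖T z w‖))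

/-- `(φ_t)`, `t ≥ 0`, is a non-elliptic semigroup of holomorphic self-maps of the unit disc. The
values of `φ` for `t < 0` or outside the disc play no role. -/
structure IsSemigroup (φ : ℝ → ℂ → ℂ) : Prop where
  maps : ∀ t, 0 ≤ t → MapsTo (φ t) (ball 0 1) (ball 0 1)
  holo : ∀ t, 0 ≤ t → DifferentiableOn ℂ (φ t) (ball 0 1)
  zero : ∀ z ∈ ball (0 : ℂ) 1, φ 0 z = z
  add : ∀ s t, 0 ≤ s → 0 ≤ t → ∀ z ∈ ball (0 : ℂ) 1, φ (t + s) z = φ t (φ s z)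
  cont : ∀ t₀, 0 ≤ t₀ → ∀ K ⊆ ball (0 : ℂ) 1, IsCompact K →
    TendstoUniformlyOn φ (φ t₀) (𝓝[Ici 0] t₀) K
  nonelliptic : ¬ ∃ z ∈ ball (0 : ℂ) 1, ∀ t, 0 ≤ t → φ t z = z

/-- `τ` is the Denjoy-Wolff point of `(φ_t)`: a point of the unit circle such that
`φ_t(z) → τ` as `t → ∞` for every `z` in the disc. -/
def IsDenjoyWolff (φ : ℝ → ℂ → ℂ) (τ : ℂ) : Prop :=
  ‖τ‖ = 1 ∧ ∀ z ∈ ball (0 : ℂ) 1, Tendsto (fun t => φ t z) atTop (𝓝 τ)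

/-- The diameter `Γ = (-1, 1) τ`. -/
def Gam (τ : ℂ) : Set ℂ := {c | ∃ r : ℝ, -1 < r ∧ r < 1 ∧ c = r * τ}

/-- `c` is a point of `Γ` closest to `z` in the hyperbolic distance. -/
def IsProj (τ z c : ℂ) : Prop := c ∈ Gam τ ∧ ∀ c' ∈ Gam τ, kD c z ≤ kD c' z

end Pool.Agent.Q7.OS
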