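import Pool.Agent.Q7.OS.Orb
import Pool.Agent.Q7.OS.Defs

open Complex Set Filter Topology Metric

namespace Pool.Agent.Q7.OS

section
variable {τ : ℂ}

/-- The Cayley transform `C(z / τ)`. -/
noncomputable def cay (τ z : ℂ) : ℂ := (τ + z) / (τ - z)

/-- Its inverse. -/
noncomputable def inv (τ w : ℂ) : ℂ := τ * ((w - 1) / (w + 1))

lemma sub_ne (hτ : ‖τ‖ = 1) {z : ℂ} (hz : z ∈ ball (0 : ℂ) 1) : τ - z ≠ 0 := by
  intro h
  rw [sub_eq_zero] at h
  rw [← h, mem_ball_zero_iff, hτ] at hz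
  exact lt_irrefl _ hz

lemma tau_ne (hτ : ‖τ‖ = 1) : τ ≠ 0 := by
  intro h; rw [h, norm_zero] at hτ; exact zero_ne_one hτ

lemma cay_mem (hτ : ‖τ‖ = 1) {z : ℂ} (hz : z ∈ ball (0 : ℂ) 1) : cay τ z ∈ HH := by
  have hz1 : ‖z‖ < 1 := by simpa using hz
  show 0 < (cay τ z).re
  have h1 := sub_ne hτ hz
  have h2 : 0 < Complex.normSq (τ - z) := Complex.normSq_pos.2 h1
  rw [cay, Complex.div_re, ← add_div]
  apply div_pos _ h2
  have h3 : Complex.normSq z < Complex.normSq τ := by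
    rw [Complex.normSq_eq_norm_sq, Complex.normSq_eq_norm_sq, hτ]; nlinarith [norm_nonneg z]
  rw [Complex.normSq_apply, Complex.normSq_apply] at h3
  simp only [add_re, sub_re, add_im, sub_im]
  nlinarith

lemma add_one_ne {w : ℂ} (hw : w ∈ HH) : w + 1 ≠ 0 := by
  intro h
  have h1 : (w + 1).re = 0 := by rw [h]; rfl
  have h2 : 0 < w.re := hw
  simp at h1; linarith

lemma inv_mem (hτ : ‖τ‖ = 1) {w : ℂ} (hw : w ∈ HH) : inv τ w ∈ ball (0 : ℂ) 1 := by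
  have h2 : 0 < w.re := hw
  rw [mem_ball_zero_iff, inv, norm_mul, hτ, one_mul, norm_div,
    div_lt_one (norm_pos_iff.2 (add_one_ne hw))]
  apply lt_of_pow_lt_pow_left₀ 2 (norm_nonneg _)
  rw [← Complex.normSq_eq_norm_sq, ← Complex.normSq_eq_norm_sq, Complex.normSq_apply,
    Complex.normSq_apply]
  simp only [sub_re, one_re, sub_im, one_im, add_re, add_im]
  nlinarith

lemma cay_inv (hτ : ‖τ‖ = 1) {w : ℂ} (hw : w ∈ HH) : cay τ (inv τ w) = w := by
  have h1 := add_one_ne hw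
  have h2 := tau_ne hτ
  have e1 : τ + τ * ((w - 1) / (w + 1)) = τ * (2 * w / (w + 1)) := by field_simp; ring
  have e2 : τ - τ * ((w - 1) / (w + 1)) = τ * (2 / (w + 1)) := by field_simp; ring
  rw [cay, inv, e1, e2]
  field_simp

lemma inv_cay (hτ : ‖τ‖ = 1) {z : ℂ} (hz : z ∈ ball (0 : ℂ) 1) : inv τ (cay τ z) = z := by
  have h1 := sub_ne hτ hz
  have h2 := tau_ne hτ
  have e1 : (τ + z) / (τ - z) - 1 = 2 * z / (τ - z) := by field_simp; ring
  have e2 : (τ + z) / (τ - z) + 1 = 2 * τ / (τ - z) := by field_simp; ring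
  rw [cay, inv, e1, e2]
  field_simp

lemma diff_cay (hτ : ‖τ‖ = 1) : DifferentiableOn ℂ (cay τ) (ball 0 1) := by
  apply DifferentiableOn.div
  · fun_prop
  · fun_prop
  · intro z hz; exact sub_ne hτ hz

lemma diff_inv : DifferentiableOn ℂ (inv τ) HH := by
  apply DifferentiableOn.const_mul
  apply DifferentiableOn.div
  · fun_prop
  · fun_prop
  · intro w hw; exact add_one_ne hw

end

section
variable {φ : ℝ → ℂ → ℂ} {τ : ℂ}

/-- Joint continuity of the semigroup of the disc. -/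
lemma joint (h : IsSemigroup φ) :
    ContinuousOn (fun q : ℝ × ℂ => φ q.1 q.2) (Ici 0 ×ˢ ball 0 1) := by
  rintro ⟨t₀, z₀⟩ ⟨ht₀, hz₀⟩
  have ht₀' : 0 ≤ t₀ := ht₀
  have hz₀' : z₀ ∈ ball (0 : ℂ) 1 := hz₀
  obtain ⟨r, hr, hrs⟩ := Metric.nhds_basis_closedBall.mem_iff.1 (isOpen_ball.mem_nhds hz₀')
  rw [ContinuousWithinAt, Metric.tendsto_nhds]
  intro ε hε
  have h1 := Metric.tendstoUniformlyOn_iff.1 (h.cont t₀ ht₀' _ hrs (isCompact_closedBall z₀ r))
    (ε / 2) (by positivity)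
  have h2 : ContinuousAt (φ t₀) z₀ :=
    ((h.holo t₀ ht₀').differentiableAt (isOpen_ball.mem_nhds hz₀')).continuousAt
  have h3 := Metric.tendsto_nhds.1 h2 (ε / 2) (by positivity)
  rw [nhdsWithin_prod_eq]
  have h4 : ∀ᶠ z in 𝓝[ball 0 1] z₀, z ∈ closedBall z₀ r ∧ dist (φ t₀ z) (φ t₀ z₀) < ε / 2 :=
    nhdsWithin_le_nhds (Filter.inter_mem (Metric.closedBall_mem_nhds z₀ hr) h3)
  filter_upwards [h1.prod_mk h4] with q hq
  obtain ⟨hq1, hq2, hq3⟩ := hq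
  have h5 := hq1 q.2 hq2
  rw [dist_comm] at h5
  calc dist (φ q.1 q.2) (φ t₀ z₀) ≤ dist (φ q.1 q.2) (φ t₀ q.2) + dist (φ t₀ q.2) (φ t₀ z₀) :=
        dist_triangle _ _ _
    _ < ε := by linarith

/-- The semigroup of the half-plane. -/
noncomputable def psi (φ : ℝ → ℂ → ℂ) (τ : ℂ) (t : ℝ) (w : ℂ) : ℂ := cay τ (φ t (inv τ w))

lemma isSg (h : IsSemigroup φ) (hτ : ‖τ‖ = 1) : IsSg (psi φ τ) where
  maps t ht z hz := cay_mem hτ (h.maps t ht (inv_mem hτ hz))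
  holo t ht := (diff_cay hτ).comp ((h.holo t ht).comp diff_inv fun _ hz => inv_mem hτ hz)
    fun _ hz => h.maps t ht (inv_mem hτ hz)
  zero z hz := by
    rw [psi, h.zero _ (inv_mem hτ hz), cay_inv hτ hz]
  add s t hs ht z hz := by
    rw [psi, psi, psi, inv_cay hτ (h.maps s hs (inv_mem hτ hz)), h.add s t hs ht _ (inv_mem hτ hz)]
  cont := by
    have h1 : ContinuousOn (fun q : ℝ × ℂ => (q.1, inv τ q.2)) (Ici 0 ×ˢ HH) :=
      continuousOn_fst.prodMk (diff_inv.continuousOn.comp continuousOn_snd fun q hq => hq.2)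
    have h2 := (joint h).comp h1 (fun q hq => ⟨hq.1, inv_mem hτ hq.2⟩)
    exact (diff_cay hτ).continuousOn.comp h2 fun q hq => h.maps q.1 hq.1 (inv_mem hτ hq.2)

lemma psi_one (t : ℝ) : psi φ τ t 1 = cay τ (φ t 0) := by
  simp [psi, inv]

lemma tendsto_psi (h : IsSemigroup φ) (hτ : IsDenjoyWolff φ τ) :
    Tendsto (fun t => ‖psi φ τ t 1‖) atTop atTop := by
  have h0 := hτ.2 0 (by simp)
  have h1 : Tendsto (fun t => ‖τ + φ t 0‖) atTop (𝓝 2) := by
    have h2 := (h0.const_add τ).norm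
    have e : ‖τ + τ‖ = 2 := by rw [← two_mul, norm_mul, hτ.1]; simp
    rwa [e] at h2
  have h2 : Tendsto (fun t => ‖τ - φ t 0‖) atTop (𝓝 0) := by
    have h3 := (h0.const_sub τ).norm
    rwa [sub_self, norm_zero] at h3
  simp only [psi_one, cay, norm_div]
  simp only [div_eq_mul_inv]
  refine h1.pos_mul_atTop zero_lt_two (Tendsto.inv_tendsto_nhdsGT_zero ?_)
  rw [tendsto_nhdsWithin_iff]
  refine ⟨h2, ?_⟩
  filter_upwards [eventually_ge_atTop 0] with t ht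
  exact norm_pos_iff.2 (sub_ne hτ.1 (h.maps t ht (by simp)))

/-! ### The projection -/

lemma T_eq (hτ : ‖τ‖ = 1) {z : ℂ} (hz : z ∈ ball (0 : ℂ) 1) {r : ℝ} (h0 : -1 < r) (h1 : r < 1) :
    ‖T (r * τ) z‖ = ‖((1 + r) / (1 - r) : ℝ) - cay τ z‖ / ‖((1 + r) / (1 - r) : ℝ) + cay τ z‖ := by
  set w := cay τ z with hw
  have hwH : w ∈ HH := cay_mem hτ hz
  have hz' : z = τ * ((w - 1) / (w + 1)) := (inv_cay hτ hz).symm
  have hw1 := add_one_ne hwH
  have hr : (1 : ℂ) - r ≠ 0 := by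
    have : (1 - r : ℝ) ≠ 0 := by linarith
    exact_mod_cast this
  have hr' : ((1 : ℂ) + r) ≠ 0 := by
    have : (1 + r : ℝ) ≠ 0 := by linarith
    exact_mod_cast this
  have hcc : (starRingEnd ℂ) τ * τ = 1 := by
    rw [mul_comm, Complex.mul_conj, Complex.normSq_eq_norm_sq, hτ]; simp
  have hwre : 0 < w.re := hwH
  set x : ℝ := (1 + r) / (1 - r) with hx
  have hxpos : 0 < x := div_pos (by linarith) (by linarith)
  have hxw : (x : ℂ) + w ≠ 0 := by
    intro h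
    have h2 : ((x : ℂ) + w).re = 0 := by rw [h]; rfl
    simp at h2; linarith
  have hxc : (x : ℂ) = (1 + r) / (1 - r) := by rw [hx]; push_cast; rfl
  have e1 : (r : ℂ) * τ - z = τ * ((x - w) * ((1 - r) / (w + 1))) := by
    rw [hz', hxc]; field_simp; ring
  have e2 : 1 - (starRingEnd ℂ) ((r : ℂ) * τ) * z = (x + w) * ((1 - r) / (w + 1)) := by
    have : (starRingEnd ℂ) ((r : ℂ) * τ) * z
        = r * ((starRingEnd ℂ) τ * τ) * ((w - 1) / (w + 1)) := by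
      rw [map_mul, Complex.conj_ofReal]; linear_combination (r * (starRingEnd ℂ) τ) * hz'
    rw [this, hcc, hxc]; field_simp; ring
  rw [T, e1, e2, norm_div, norm_mul, norm_mul, norm_mul, hτ, one_mul]
  have h3 : ‖(1 - (r : ℂ)) / (w + 1)‖ ≠ 0 := by
    rw [norm_ne_zero_iff]; exact div_ne_zero hr hw1
  field_simp

lemma T_lt (hτ : ‖τ‖ = 1) {z : ℂ} (hz : z ∈ ball (0 : ℂ) 1) {r : ℝ} (h0 : -1 < r) (h1 : r < 1) :
    ‖T (r * τ) z‖ < 1 := by
  rw [T_eq hτ hz h0 h1]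
  have hwre : 0 < (cay τ z).re := cay_mem hτ hz
  have hxpos : 0 < (1 + r) / (1 - r) := div_pos (by linarith) (by linarith)
  set x : ℝ := (1 + r) / (1 - r)
  set w := cay τ z
  have hxw : (x : ℂ) + w ≠ 0 := by
    intro h
    have h2 : ((x : ℂ) + w).re = 0 := by rw [h]; rfl
    simp at h2; linarith
  rw [div_lt_one (norm_pos_iff.2 hxw)]
  apply lt_of_pow_lt_pow_left₀ 2 (norm_nonneg _)
  rw [← Complex.normSq_eq_norm_sq, ← Complex.normSq_eq_norm_sq, Complex.normSq_apply,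
    Complex.normSq_apply]
  simp only [sub_re, ofReal_re, sub_im, ofReal_im, add_re, add_im]
  nlinarith [mul_pos hxpos hwre]

lemma kD_le_iff {a b c d : ℂ} (h1 : ‖T a b‖ < 1) (h2 : ‖T c d‖ < 1) :
    kD a b ≤ kD c d ↔ ‖T a b‖ ≤ ‖T c d‖ := by
  have n1 := norm_nonneg (T a b)
  have n2 := norm_nonneg (T c d)
  unfold kD
  rw [mul_le_mul_iff_of_pos_left (by norm_num),
    Real.log_le_log_iff (div_pos (by linarith) (by linarith)) (div_pos (by linarith) (by linarith)),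
    div_le_div_iff₀ (by linarith) (by linarith)]
  constructor <;> intro h <;> nlinarith

/-- The comparison of two points of `Γ`: with `x = C(r)`, `y = C(s)`, `w = C(z)`. -/
lemma T_le_iff (hτ : ‖τ‖ = 1) {z : ℂ} (hz : z ∈ ball (0 : ℂ) 1) {r s : ℝ} (h0 : -1 < r)
    (h1 : r < 1) (h2 : -1 < s) (h3 : s < 1) :
    ‖T (r * τ) z‖ ≤ ‖T (s * τ) z‖ ↔
      (‖cay τ z‖ ^ 2 + ((1 + r) / (1 - r)) ^ 2) * ((1 + s) / (1 - s)) ≤
        (‖cay τ z‖ ^ 2 + ((1 + s) / (1 - s)) ^ 2) * ((1 + r) / (1 - r)) := by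
  rw [T_eq hτ hz h0 h1, T_eq hτ hz h2 h3]
  have hwre : 0 < (cay τ z).re := cay_mem hτ hz
  have hxpos : 0 < (1 + r) / (1 - r) := div_pos (by linarith) (by linarith)
  have hypos : 0 < (1 + s) / (1 - s) := div_pos (by linarith) (by linarith)
  set x : ℝ := (1 + r) / (1 - r)
  set y : ℝ := (1 + s) / (1 - s)
  set w := cay τ z
  have key : ∀ u : ℝ, 0 < u → 0 < ‖(u : ℂ) + w‖ := by
    intro u hu
    rw [norm_pos_iff]
    intro h
    have h2 : ((u : ℂ) + w).re = 0 := by rw [h]; rfl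
    simp at h2; linarith
  have hx := key x hxpos
  have hy := key y hypos
  rw [← pow_le_pow_iff_left₀ (by positivity) (by positivity) two_ne_zero, div_pow, div_pow,
    div_le_div_iff₀ (by positivity) (by positivity)]
  simp only [← Complex.normSq_eq_norm_sq, Complex.normSq_apply, sub_re, ofReal_re, sub_im,
    ofReal_im, add_re, add_im]
  constructor
  · intro h
    have h4 : 0 ≤ w.re * ((w.re * w.re + w.im * w.im + y ^ 2) * x
        - (w.re * w.re + w.im * w.im + x ^ 2) * y) := by nlinarith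
    have := nonneg_of_mul_nonneg_right h4 hwre
    linarith
  · intro h
    have h4 : 0 ≤ w.re * ((w.re * w.re + w.im * w.im + y ^ 2) * x
        - (w.re * w.re + w.im * w.im + x ^ 2) * y) := mul_nonneg hwre.le (by linarith)
    nlinarith

/-- The projection of `z`. -/
lemma isProj_iff (hτ : ‖τ‖ = 1) {z : ℂ} (hz : z ∈ ball (0 : ℂ) 1) (c : ℂ) :
    IsProj τ z c ↔ c = (((‖cay τ z‖ - 1) / (‖cay τ z‖ + 1) : ℝ) : ℂ) * τ := by
  have hwre : 0 < (cay τ z).re := cay_mem hτ hz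
  have hρ : 0 < ‖cay τ z‖ := lt_of_lt_of_le hwre (Complex.re_le_norm _)
  set ρ := ‖cay τ z‖ with hρd
  have g0 : -1 < (ρ - 1) / (ρ + 1) := by rw [lt_div_iff₀ (by linarith)]; linarith
  have g1 : (ρ - 1) / (ρ + 1) < 1 := by rw [div_lt_one (by linarith)]; linarith
  have gx : (1 + (ρ - 1) / (ρ + 1)) / (1 - (ρ - 1) / (ρ + 1)) = ρ := by
    have : 1 - (ρ - 1) / (ρ + 1) = 2 / (ρ + 1) := by field_simp; ring
    rw [this]; field_simp; ring
  constructor
  · rintro ⟨⟨r, h0, h1, rfl⟩, hmin⟩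
    have h2 := hmin _ ⟨(ρ - 1) / (ρ + 1), g0, g1, rfl⟩
    rw [kD_le_iff (T_lt hτ hz h0 h1) (T_lt hτ hz g0 g1), T_le_iff hτ hz h0 h1 g0 g1, gx, ← hρd] at h2
    set x : ℝ := (1 + r) / (1 - r) with hx
    have h3 : ρ * (x - ρ) ^ 2 ≤ 0 := by nlinarith
    have h4 : (x - ρ) ^ 2 = 0 := le_antisymm (by
      by_contra hc
      push Not at hc
      have := mul_pos hρ hc
      linarith) (sq_nonneg _)
    have h5 : x = ρ := sub_eq_zero.1 (pow_eq_zero_iff two_ne_zero |>.1 h4)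
    have h6 : r = (ρ - 1) / (ρ + 1) := by
      rw [← h5, hx]
      have : (1 - r) ≠ 0 := by linarith
      field_simp
      ring
    rw [← h6]
  · rintro rfl
    refine ⟨⟨(ρ - 1) / (ρ + 1), g0, g1, rfl⟩, ?_⟩
    rintro _ ⟨s, h2, h3, rfl⟩
    rw [kD_le_iff (T_lt hτ hz g0 g1) (T_lt hτ hz h2 h3), T_le_iff hτ hz g0 g1 h2 h3, gx, ← hρd]
    set y : ℝ := (1 + s) / (1 - s) with hy
    nlinarith [mul_nonneg hρ.le (sq_nonneg (y - ρ))]

lemma kD_proj (hτ : ‖τ‖ = 1) {ρ : ℝ} (hρ : 1 ≤ ρ) :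
    kD 0 ((((ρ - 1) / (ρ + 1) : ℝ) : ℂ) * τ) = 1 / 2 * Real.log ρ := by
  have h1 : ‖T 0 ((((ρ - 1) / (ρ + 1) : ℝ) : ℂ) * τ)‖ = (ρ - 1) / (ρ + 1) := by
    rw [T]
    simp only [map_zero, zero_mul, sub_zero, div_one, zero_sub, norm_neg, norm_mul, hτ, mul_one,
      Complex.norm_real, Real.norm_eq_abs]
    exact abs_of_nonneg (div_nonneg (by linarith) (by linarith))
  rw [kD, h1]
  congr 2
  have : 1 - (ρ - 1) / (ρ + 1) = 2 / (ρ + 1) := by field_simp; ring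
  rw [this]; field_simp; ring

end

end Pool.Agent.Q7.OS
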