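import Pool.Agent.Q7.OS.Stmts

open Set Filter Topology Complex MeasureTheory Metric

namespace Pool.Agent.Q7.OS

lemma one_mem : (1 : ℂ) ∈ HH := by simp [HH]

lemma isOpen_HH : IsOpen HH := isOpen_lt continuous_const Complex.continuous_re

lemma convex_HH : Convex ℝ HH := (convex_halfSpace_re_gt 0)

/-- The points of the segment from `1` to `w`. -/
lemma seg_mem {w : ℂ} (hw : w ∈ HH) {σ : ℝ} (h0 : 0 ≤ σ) (h1 : σ ≤ 1) : 1 + σ * (w - 1) ∈ HH := by
  have hw' : 0 < w.re := hw
  show 0 < (1 + σ * (w - 1)).re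
  simp only [add_re, one_re, mul_re, ofReal_re, sub_re, ofReal_im, zero_mul, sub_zero]
  rcases h1.eq_or_lt with h | h
  · rw [h]; linarith
  · nlinarith [mul_nonneg h0 hw'.le]

/-- Primitives on the half-plane. -/
lemma exists_prim {p : ℂ → ℂ} (hp : DifferentiableOn ℂ p HH) :
    ∃ K : ℂ → ℂ, ∀ w ∈ HH, HasDerivAt K (p w) w := by
  -- transfer to the disc by `C z = (1 + z) / (1 - z)`
  have hne : ∀ z ∈ ball (0 : ℂ) 1, (1 : ℂ) - z ≠ 0 := by
    intro z hz h
    rw [sub_eq_zero] at h
    rw [← h] at hz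
    simp at hz
  have hC : ∀ z ∈ ball (0 : ℂ) 1, (1 + z) / (1 - z) ∈ HH := by
    intro z hz
    have hz1 : ‖z‖ < 1 := by simpa using hz
    show 0 < ((1 + z) / (1 - z)).re
    have h1 := hne z hz
    have h2 : 0 < Complex.normSq (1 - z) := Complex.normSq_pos.2 h1
    rw [Complex.div_re, ← add_div]
    apply div_pos _ h2
    have h3 : Complex.normSq z < 1 := by
      rw [Complex.normSq_eq_norm_sq]; nlinarith [norm_nonneg z]
    rw [Complex.normSq_apply] at h3
    simp only [add_re, one_re, sub_re, add_im, one_im, sub_im]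
    nlinarith
  have hd : DifferentiableOn ℂ (fun z => p ((1 + z) / (1 - z)) * (2 / (1 - z) ^ 2))
      (ball (0 : ℂ) 1) := by
    apply DifferentiableOn.mul
    · apply hp.comp _ hC
      apply DifferentiableOn.div
      · fun_prop
      · fun_prop
      · exact hne
    · apply DifferentiableOn.div
      · fun_prop
      · fun_prop
      · intro z hz; exact pow_ne_zero 2 (hne z hz)
  obtain ⟨Q, hQ⟩ := hd.isExactOn_ball
  have hw1 : ∀ w ∈ HH, w + 1 ≠ 0 := by
    intro w hw h
    have h1 : (w + 1).re = 0 := by rw [h]; rfl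
    have h2 : 0 < w.re := hw
    simp at h1; linarith
  have hD : ∀ w ∈ HH, (w - 1) / (w + 1) ∈ ball (0 : ℂ) 1 := by
    intro w hw
    have h2 : 0 < w.re := hw
    rw [mem_ball_zero_iff, norm_div, div_lt_one (norm_pos_iff.2 (hw1 w hw))]
    apply lt_of_pow_lt_pow_left₀ 2 (norm_nonneg _)
    rw [← Complex.normSq_eq_norm_sq, ← Complex.normSq_eq_norm_sq, Complex.normSq_apply,
      Complex.normSq_apply]
    simp only [sub_re, one_re, sub_im, one_im, add_re, add_im]
    nlinarith
  refine ⟨fun w => Q ((w - 1) / (w + 1)), fun w hw => ?_⟩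
  have h1 := hQ _ (hD w hw)
  have hw2 := hw1 w hw
  have h2 : HasDerivAt (fun w : ℂ => (w - 1) / (w + 1)) (2 / (w + 1) ^ 2) w := by
    have := ((hasDerivAt_id w).sub_const 1).div ((hasDerivAt_id w).add_const 1) hw2
    have e0 : (1 * (w + 1) - (w - 1) * 1) / (w + 1) ^ 2 = 2 / (w + 1) ^ 2 := by
      congr 1; ring
    rw [← e0]
    exact this
  have h3 := h1.comp w h2
  have e : 1 - (w - 1) / (w + 1) = 2 / (w + 1) := by field_simp; ring
  have e2 : (1 + (w - 1) / (w + 1)) / (1 - (w - 1) / (w + 1)) = w := by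
    rw [e]; field_simp; ring
  have e3 : p ((1 + (w - 1) / (w + 1)) / (1 - (w - 1) / (w + 1))) *
      (2 / (1 - (w - 1) / (w + 1)) ^ 2) * (2 / (w + 1) ^ 2) = p w := by
    rw [e2, e]; field_simp
  rw [e3] at h3
  exact h3

/-- The integral along the segment. -/
lemma seg_int {p K : ℂ → ℂ} (hp : DifferentiableOn ℂ p HH)
    (hK : ∀ w ∈ HH, HasDerivAt K (p w) w) {w : ℂ} (hw : w ∈ HH) :
    ∫ σ in (0 : ℝ)..1, (w - 1) * p (1 + σ * (w - 1)) = K w - K 1 := by
  have h1 : ∀ σ ∈ uIcc (0 : ℝ) 1, HasDerivAt (fun σ : ℝ => K (1 + σ * (w - 1)))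
      ((w - 1) * p (1 + σ * (w - 1))) σ := by
    intro σ hσ
    rw [uIcc_of_le zero_le_one] at hσ
    have h2 : HasDerivAt (fun σ : ℝ => 1 + (σ : ℂ) * (w - 1)) (w - 1) σ := by
      have := (((hasDerivAt_id σ).ofReal_comp).mul_const (w - 1)).const_add 1
      simpa using this
    have h3 := (hK _ (seg_mem hw hσ.1 hσ.2)).comp σ h2
    rw [mul_comm]; exact h3
  have hcont : ContinuousOn (fun σ : ℝ => (w - 1) * p (1 + σ * (w - 1))) (uIcc (0 : ℝ) 1) := by
    apply ContinuousOn.mul continuousOn_const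
    apply hp.continuousOn.comp (by fun_prop)
    intro σ hσ
    rw [uIcc_of_le zero_le_one] at hσ
    exact seg_mem hw hσ.1 hσ.2
  rw [intervalIntegral.integral_eq_sub_of_hasDerivAt h1 hcont.intervalIntegrable]
  simp

lemma seg_int_im {p K : ℂ → ℂ} (hp : DifferentiableOn ℂ p HH)
    (hK : ∀ w ∈ HH, HasDerivAt K (p w) w) {w : ℂ} (hw : w ∈ HH) :
    ∫ σ in (0 : ℝ)..1, ((w - 1) * p (1 + σ * (w - 1))).im = (K w - K 1).im := by
  rw [← seg_int hp hK hw]
  have hcont : ContinuousOn (fun σ : ℝ => (w - 1) * p (1 + σ * (w - 1))) (uIcc (0 : ℝ) 1) := by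
    apply ContinuousOn.mul continuousOn_const
    apply hp.continuousOn.comp (by fun_prop)
    intro σ hσ
    rw [uIcc_of_le zero_le_one] at hσ
    exact seg_mem hw hσ.1 hσ.2
  have := Complex.imCLM.intervalIntegral_comp_comm (hcont.intervalIntegrable (μ := volume))
  exact this

theorem orb (hJW : TaskJW) (hGen : TaskGen) (hOpen : TaskOpen) (hMain : TaskMain) : TaskOrb := by
  intro ψ hψ hinf
  obtain ⟨G, hG, hd⟩ := hGen ψ hψ
  have hre : ∀ t, 0 ≤ t → ∀ z ∈ HH, z.re ≤ (ψ t z).re := by
    intro t ht z hz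
    rcases ht.eq_or_lt with h0 | hpos
    · rw [← h0, hψ.zero z hz]
    · refine hJW (ψ t) (hψ.holo t ht) (hψ.maps t ht) (fun n => ψ (n * t) 1)
        (fun n => hψ.maps _ (by positivity) 1 one_mem) (fun n => ?_) ?_ z hz
      · show ψ (((n + 1 : ℕ) : ℝ) * t) 1 = ψ t (ψ (n * t) 1)
        rw [← hψ.add (n * t) t (by positivity) ht 1 one_mem]
        congr 1
        push_cast; ring
      · exact hinf.comp (tendsto_natCast_atTop_atTop.atTop_mul_const hpos)
  have hGre : ∀ z ∈ HH, 0 ≤ (G z).re := by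
    intro z hz
    have h1 := hd z hz 0 le_rfl
    rw [hψ.zero z hz] at h1
    have h2 : HasDerivWithinAt (fun t => (ψ t z).re) (G z).re (Ici 0) 0 := by
      have := Complex.reCLM.hasFDerivAt.comp_hasDerivWithinAt (0 : ℝ) h1
      exact this
    rw [← hasDerivWithinAt_Ioi_iff_Ici, hasDerivWithinAt_iff_tendsto_slope' (by simp)] at h2
    refine ge_of_tendsto h2 ?_
    filter_upwards [self_mem_nhdsWithin] with t ht
    have ht' : 0 < t := ht
    rw [slope_def_field, sub_zero]
    apply div_nonneg _ ht'.le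
    have := hre t ht'.le z hz
    rw [hψ.zero z hz]; linarith
  -- continuity of the orbit
  have hc : ContinuousOn (fun t => ψ t 1) (Ici 0) := by
    have := hψ.cont.comp (f := fun t : ℝ => (t, (1 : ℂ))) (s := Ici 0) (by fun_prop)
      (fun t ht => ⟨ht, one_mem⟩)
    exact this
  have hmem : ∀ t, 0 ≤ t → ψ t 1 ∈ HH := fun t ht => hψ.maps t ht 1 one_mem
  have hsub : ∀ T : ℝ, Icc 0 T ⊆ Ici (0 : ℝ) := fun T x hx => hx.1
  rcases hOpen G hG hGre with hpos | ⟨c, hc0, hGc⟩
  · -- the main case
    have hGne : ∀ z ∈ HH, G z ≠ 0 := fun z hz h => by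
      have := hpos z hz; rw [h] at this; simp at this
    set p : ℂ → ℂ := fun z => (G z)⁻¹ with hp
    have hpd : DifferentiableOn ℂ p HH := hG.inv hGne
    have hppos : ∀ z ∈ HH, 0 < (p z).re := by
      intro z hz
      rw [hp]
      simp only [Complex.inv_re]
      exact div_pos (hpos z hz) (Complex.normSq_pos.2 (hGne z hz))
    obtain ⟨K, hK⟩ := exists_prim hpd
    have hKt : ∀ t, 0 ≤ t → K (ψ t 1) - t = K 1 := by
      intro T hT
      have h1 : ContinuousOn (fun t : ℝ => K (ψ t 1) - (t : ℂ)) (Icc 0 T) := by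
        apply ContinuousOn.sub _ (by fun_prop)
        have hKc : ContinuousOn K HH := fun w hw => (hK w hw).continuousAt.continuousWithinAt
        exact hKc.comp (hc.mono (hsub T)) fun t ht => hmem t ht.1
      have h2 : ∀ x ∈ Ico 0 T, HasDerivWithinAt (fun t : ℝ => K (ψ t 1) - (t : ℂ)) 0 (Ici x) x := by
        intro x hx
        have h3 := hd 1 one_mem x hx.1
        have h4 : HasDerivWithinAt (fun t : ℝ => K (ψ t 1)) (p (ψ x 1) * G (ψ x 1)) (Ici x) x :=
          (hK _ (hmem x hx.1)).comp_hasDerivWithinAt x h3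
        have h5 : HasDerivWithinAt (fun t : ℝ => (t : ℂ)) 1 (Ici x) x := by
          have := (hasDerivAt_id x).ofReal_comp.hasDerivWithinAt (s := Ici x)
          simpa using this
        have h6 := h4.sub h5
        have e : p (ψ x 1) * G (ψ x 1) - 1 = 0 := by
          rw [hp]
          simp only
          rw [inv_mul_cancel₀ (hGne _ (hmem x hx.1)), sub_self]
        rw [e] at h6
        exact h6
      have h3 := constant_of_has_deriv_right_zero h1 h2 T ⟨hT, le_rfl⟩
      rw [h3, hψ.zero 1 one_mem]; simp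
    -- the radial derivative
    have hrad : ∀ t, 0 ≤ t → 0 ≤ ((starRingEnd ℂ) (ψ t 1) * G (ψ t 1)).re := by
      intro t ht
      rcases ht.eq_or_lt with h0 | ht0
      · rw [← h0, hψ.zero 1 one_mem]
        simpa using hGre 1 one_mem
      set w := ψ t 1 with hw
      have hwH : w ∈ HH := hmem t ht
      have hw1 : 1 < w.re := by
        -- strict monotonicity of the real part: otherwise constant near 0
        by_contra hcon
        push Not at hcon
        have hle : ∀ s ∈ Icc 0 t, (ψ s 1).re = 1 := by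
          intro s hs
          have h1 := hre s hs.1 1 one_mem
          have h2 := hre (t - s) (by linarith [hs.2]) (ψ s 1) (hmem s hs.1)
          rw [← hψ.add s (t - s) hs.1 (by linarith [hs.2]) 1 one_mem, sub_add_cancel] at h2
          simp only [one_re] at h1
          linarith
        have h1 := hd 1 one_mem 0 le_rfl
        rw [hψ.zero 1 one_mem] at h1
        have h2 : HasDerivWithinAt (fun t => (ψ t 1).re) (G 1).re (Ici 0) 0 := by
          have := Complex.reCLM.hasFDerivAt.comp_hasDerivWithinAt (0 : ℝ) h1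
          exact this
        rw [← hasDerivWithinAt_Ioi_iff_Ici, hasDerivWithinAt_iff_tendsto_slope' (by simp)] at h2
        have h3 : (G 1).re ≤ 0 := by
          refine le_of_tendsto h2 ?_
          filter_upwards [Ioo_mem_nhdsGT ht0] with s hs
          rw [slope_def_field, sub_zero, hle s ⟨hs.1.le, hs.2.le⟩, hle 0 ⟨le_rfl, ht⟩]
          simp
        have := hpos 1 one_mem
        linarith
      have hint : ∫ σ in (0 : ℝ)..1, ((w - 1) * p (1 + σ * (w - 1))).im = 0 := by
        rw [seg_int_im hpd hK hwH]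
        have := hKt t ht
        have e : K w - K 1 = t := by rw [← this]; ring
        rw [e]; simp
      have hm := hMain p hpd hppos w hwH hw1 hint
      have hm2 : 0 < (w * p w).re := by
        have e : w * p w = (w - 1) * p w + p w := by ring
        rw [e, add_re]
        have := hppos w hwH
        linarith
      -- conj w * G = |G|^2 * conj (w p)
      have e : (starRingEnd ℂ) w * G w = (Complex.normSq (G w) : ℂ) * (starRingEnd ℂ) (w * p w) := by
        rw [hp]
        simp only [map_mul, map_inv₀]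
        have hcg : (starRingEnd ℂ) (G w) ≠ 0 := by
          rw [Ne, map_eq_zero]; exact hGne w hwH
        have e2 : (Complex.normSq (G w) : ℂ) = G w * (starRingEnd ℂ) (G w) :=
          (Complex.mul_conj (G w)).symm
        rw [e2]
        field_simp
      rw [e, Complex.re_ofReal_mul, Complex.conj_re]
      exact mul_nonneg (Complex.normSq_nonneg _) hm2.le
    intro a ha b hb hab
    have ha' : 0 ≤ a := ha
    have hsq : ‖ψ a 1‖ ^ 2 ≤ ‖ψ b 1‖ ^ 2 := by
      have hder : ∀ x ∈ Ico a b, HasDerivWithinAt (fun t => ‖ψ t 1‖ ^ 2)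
          (2 * ((starRingEnd ℂ) (ψ x 1) * G (ψ x 1)).re) (Ici x) x := by
        intro x hx
        have h3 := hd 1 one_mem x (ha'.trans hx.1)
        have hr : HasDerivWithinAt (fun t => (ψ t 1).re) (G (ψ x 1)).re (Ici x) x := by
          have := Complex.reCLM.hasFDerivAt.comp_hasDerivWithinAt (x : ℝ) h3
          exact this
        have hi : HasDerivWithinAt (fun t => (ψ t 1).im) (G (ψ x 1)).im (Ici x) x := by
          have := Complex.imCLM.hasFDerivAt.comp_hasDerivWithinAt (x : ℝ) h3
          exact this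
        have h4 := (hr.mul hr).add (hi.mul hi)
        have e1 : (fun t => ‖ψ t 1‖ ^ 2) = fun t => (ψ t 1).re * (ψ t 1).re
            + (ψ t 1).im * (ψ t 1).im := by
          funext t
          rw [← Complex.normSq_eq_norm_sq, Complex.normSq_apply]
        rw [e1]
        have e2 : 2 * ((starRingEnd ℂ) (ψ x 1) * G (ψ x 1)).re
            = (G (ψ x 1)).re * (ψ x 1).re + (ψ x 1).re * (G (ψ x 1)).re
              + ((G (ψ x 1)).im * (ψ x 1).im + (ψ x 1).im * (G (ψ x 1)).im) := by
          rw [Complex.mul_re, Complex.conj_re, Complex.conj_im]; ring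
        rw [e2]
        exact h4
      have hcc : ContinuousOn (fun t => ‖ψ t 1‖ ^ 2) (Icc a b) :=
        ((hc.mono fun x hx => ha'.trans hx.1).norm).pow 2
      exact image_le_of_deriv_right_le_deriv_boundary (f := fun _ => ‖ψ a 1‖ ^ 2)
        (f' := fun _ => 0) (a := a) (b := b) (B := fun t => ‖ψ t 1‖ ^ 2)
        (B' := fun x => 2 * ((starRingEnd ℂ) (ψ x 1) * G (ψ x 1)).re) continuousOn_const
        (fun x _ => hasDerivWithinAt_const x _ _) le_rfl hcc hder
        (fun x hx => mul_nonneg zero_le_two (hrad x (ha'.trans hx.1))) ⟨hab, le_rfl⟩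
    exact le_of_sq_le_sq hsq (norm_nonneg _)
  · -- translations
    have hψ1 : ∀ t, 0 ≤ t → ψ t 1 = 1 + c * t := by
      intro T hT
      have h1 : ContinuousOn (fun t : ℝ => ψ t 1 - c * (t : ℂ)) (Icc 0 T) :=
        (hc.mono (hsub T)).sub (by fun_prop)
      have h2 : ∀ x ∈ Ico 0 T, HasDerivWithinAt (fun t : ℝ => ψ t 1 - c * (t : ℂ)) 0 (Ici x) x := by
        intro x hx
        have h3 := hd 1 one_mem x hx.1
        rw [hGc _ (hmem x hx.1)] at h3
        have h5 : HasDerivWithinAt (fun t : ℝ => c * (t : ℂ)) c (Ici x) x := by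
          have := ((hasDerivAt_id x).ofReal_comp.const_mul c).hasDerivWithinAt (s := Ici x)
          simpa using this
        have h6 := h3.sub h5
        rw [sub_self] at h6
        exact h6
      have h3 := constant_of_has_deriv_right_zero h1 h2 T ⟨hT, le_rfl⟩
      rw [hψ.zero 1 one_mem] at h3
      simp only [ofReal_zero, mul_zero, sub_zero] at h3
      linear_combination h3
    intro a ha b hb hab
    have ha' : 0 ≤ a := ha
    have hb' : 0 ≤ b := hb
    have hsq : ‖ψ a 1‖ ^ 2 ≤ ‖ψ b 1‖ ^ 2 := by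
      rw [← Complex.normSq_eq_norm_sq, ← Complex.normSq_eq_norm_sq, Complex.normSq_apply,
        Complex.normSq_apply, hψ1 a ha', hψ1 b hb']
      simp only [add_re, one_re, mul_re, ofReal_re, ofReal_im, mul_zero, sub_zero, hc0, zero_mul,
        add_zero, add_im, one_im, mul_im, zero_add]
      have : a * a ≤ b * b := mul_self_le_mul_self ha' hab
      nlinarith [mul_self_nonneg c.im, mul_le_mul_of_nonneg_left this (mul_self_nonneg c.im)]
    exact le_of_sq_le_sq hsq (norm_nonneg _)

end Pool.Agent.Q7.OS
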