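import Mathlib

/-! Blueprint for `MP_0641e2_an`: the orthogonal speed of a non-elliptic semigroup is
nondecreasing. Everything is in the right half-plane `HH = {0 < re z}`. -/

open Set Filter Topology Complex MeasureTheory

namespace Pool.Agent.Q7.OS

/-- The right half-plane. -/
def HH : Set ℂ := {z | 0 < z.re}

/-- Schwarz-Pick for functions with positive real part on the half-plane. -/
def TaskSP : Prop := ∀ f : ℂ → ℂ, DifferentiableOn ℂ f HH → (∀ z ∈ HH, 0 < (f z).re) →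
  ∀ z ∈ HH, ∀ w ∈ HH, ‖f z - f w‖ ^ 2 * (z.re * w.re) ≤ ‖z - w‖ ^ 2 * ((f z).re * (f w).re)

/-- Schwarz-Pick, derivative version (from `TaskSP`, `w → z`). -/
def TaskSPD : Prop := ∀ f : ℂ → ℂ, DifferentiableOn ℂ f HH → (∀ z ∈ HH, 0 < (f z).re) →
  ∀ z ∈ HH, ‖deriv f z‖ * z.re ≤ (f z).re

/-- Julia-Wolff (from `TaskSP`): with `q n = ‖zn n‖ ^ 2 / (zn n).re ≥ ‖zn n‖ → ∞` there are
infinitely many `n` with `q (n+1) ≥ q n`; apply `TaskSP` to `z`, `zn n` and let `n → ∞` along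
them. -/
def TaskJW : Prop := ∀ f : ℂ → ℂ, DifferentiableOn ℂ f HH → (∀ z ∈ HH, 0 < (f z).re) →
  ∀ zn : ℕ → ℂ, (∀ n, zn n ∈ HH) → (∀ n, zn (n + 1) = f (zn n)) →
    Tendsto (fun n => ‖zn n‖) atTop atTop → ∀ z ∈ HH, z.re ≤ (f z).re

/-- A semigroup of holomorphic self-maps of the half-plane, jointly continuous. -/
structure IsSg (ψ : ℝ → ℂ → ℂ) : Prop where
  maps : ∀ t, 0 ≤ t → ∀ z ∈ HH, ψ t z ∈ HH
  holo : ∀ t, 0 ≤ t → DifferentiableOn ℂ (ψ t) HH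
  zero : ∀ z ∈ HH, ψ 0 z = z
  add : ∀ s t, 0 ≤ s → 0 ≤ t → ∀ z ∈ HH, ψ (t + s) z = ψ t (ψ s z)
  cont : ContinuousOn (fun q : ℝ × ℂ => ψ q.1 q.2) (Ici 0 ×ˢ HH)

/-- The averages are holomorphic. -/
def TaskG1 : Prop := ∀ ψ, IsSg ψ → ∀ h, 0 < h →
  DifferentiableOn ℂ (fun z => ∫ s in (0 : ℝ)..h, ψ s z) HH

/-- For small `h` the derivative of the average does not vanish at `z` (the averages divided by `h`
tend to the identity locally uniformly as `h → 0`). -/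
def TaskG2 : Prop := ∀ ψ, IsSg ψ → ∀ z ∈ HH, ∃ h, 0 < h ∧
  deriv (fun z => ∫ s in (0 : ℝ)..h, ψ s z) z ≠ 0

/-- The right derivative at `0`, with the average `F z = ∫_0^h ψ_s z ds`, `F' z ≠ 0`:
`(F (ψ_t z) - F z) / t = (∫_h^{h+t} ψ_s z - ∫_0^t ψ_s z) / t → ψ_h z - z`. -/
def TaskG3 : Prop := ∀ ψ, IsSg ψ → ∀ h, 0 < h → ∀ z ∈ HH,
  deriv (fun z => ∫ s in (0 : ℝ)..h, ψ s z) z ≠ 0 →
    HasDerivWithinAt (fun t => ψ t z)
      ((ψ h z - z) / deriv (fun z => ∫ s in (0 : ℝ)..h, ψ s z) z) (Ici 0) 0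

/-- The generator (from G1, G2, G3). -/
def TaskGen : Prop := ∀ ψ, IsSg ψ → ∃ G : ℂ → ℂ, DifferentiableOn ℂ G HH ∧
  ∀ z ∈ HH, ∀ t, 0 ≤ t → HasDerivWithinAt (fun t => ψ t z) (G (ψ t z)) (Ici t) t

/-- Open mapping: a holomorphic function with `0 ≤ re` has `0 < re` or is constant. -/
def TaskOpen : Prop := ∀ G : ℂ → ℂ, DifferentiableOn ℂ G HH → (∀ z ∈ HH, 0 ≤ (G z).re) →
  (∀ z ∈ HH, 0 < (G z).re) ∨ ∃ c : ℂ, c.re = 0 ∧ ∀ z ∈ HH, G z = c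

/-- The main inequality. With `δ = w - 1`, `v = 1 + σ δ`, `P σ = δ p(v)`:
`re P(1) = ∫ (re P + σ re P')`, so
`δ.re * re P(1) + δ.im * ∫ im P = ∫ (‖δ‖² re p(v) + δ.re σ re (δ² p'(v)))`, and
`‖p'(v)‖ ≤ re p(v) / re v`, `re v = 1 + σ δ.re`. -/
def TaskMain : Prop := ∀ p : ℂ → ℂ, DifferentiableOn ℂ p HH → (∀ z ∈ HH, 0 < (p z).re) →
  ∀ w ∈ HH, 1 < w.re → ∫ σ in (0 : ℝ)..1, ((w - 1) * p (1 + σ * (w - 1))).im = 0 →
    0 ≤ ((w - 1) * p w).re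

/-- The orbit of `1` (from Gen, JW, Open, Main). -/
def TaskOrb : Prop := ∀ ψ, IsSg ψ → Tendsto (fun t => ‖ψ t 1‖) atTop atTop →
  MonotoneOn (fun t => ‖ψ t 1‖) (Ici 0)

end Pool.Agent.Q7.OS
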