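import Pool.Agent.Q7.OS.Stmts

/-! Averages of a semigroup are holomorphic (blueprint lemma for `MP_0641e2_an`). -/

open Set Filter Topology Complex MeasureTheory Interval

namespace Pool.Agent.Q7.OS.TaskG1

theorem main : Pool.Agent.Q7.OS.TaskG1 := by
  intro ψ hψ h hh z hz
  have hz' : 0 < z.re := hz
  -- the balls
  have hball : Metric.closedBall z (z.re / 2) ⊆ HH := by
    intro w hw
    have h1 : ‖w - z‖ ≤ z.re / 2 := by simpa [dist_eq_norm] using hw
    have h2 : |(w - z).re| ≤ ‖w - z‖ := Complex.abs_re_le_norm _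
    have h3 := (abs_le.mp (h2.trans h1)).1
    have h4 : (w - z).re = w.re - z.re := by simp
    show 0 < w.re
    rw [h4] at h3; linarith
  have hopen : IsOpen HH := by
    have : HH = Complex.re ⁻¹' (Ioi 0) := by ext; simp [HH]
    rw [this]; exact isOpen_Ioi.preimage Complex.continuous_re
  have hK : IsCompact ((Icc (0 : ℝ) h) ×ˢ Metric.closedBall z (z.re / 2)) :=
    isCompact_Icc.prod (isCompact_closedBall _ _)
  obtain ⟨C, hC⟩ := hK.exists_bound_of_continuousOn
    (hψ.cont.mono (prod_mono (fun x hx => hx.1) hball))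
  have hdiff : ∀ s, 0 ≤ s → ∀ w ∈ HH, DifferentiableAt ℂ (ψ s) w := fun s hs w hw =>
    (hψ.holo s hs w hw).differentiableAt (hopen.mem_nhds hw)
  have hsub : ∀ s, s ∈ Ι (0 : ℝ) h → 0 ≤ s ∧ s ≤ h := by
    intro s hs; rw [uIoc_of_le hh.le] at hs; exact ⟨hs.1.le, hs.2⟩
  have hbound : ∀ s, 0 ≤ s → s ≤ h → ∀ w ∈ Metric.ball z (z.re / 4),
      ‖deriv (ψ s) w‖ ≤ C / (z.re / 4) := by
    intro s hs0 hs1 w hw
    have hsubb : Metric.closedBall w (z.re / 4) ⊆ Metric.closedBall z (z.re / 2) := by
      intro y hy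
      have h1 : dist y w ≤ z.re / 4 := hy
      have h2 : dist w z < z.re / 4 := hw
      have h3 := dist_triangle y w z
      show dist y z ≤ z.re / 2
      linarith
    apply Complex.norm_deriv_le_of_forall_mem_sphere_norm_le (by positivity)
    · apply DifferentiableOn.diffContOnCl
      intro y hy
      have hy' : y ∈ Metric.closedBall w (z.re / 4) := Metric.closure_ball_subset_closedBall hy
      exact (hdiff s hs0 y (hball (hsubb hy'))).differentiableWithinAt
    · intro y hy
      exact hC (s, y) ⟨⟨hs0, hs1⟩, hsubb (Metric.sphere_subset_closedBall hy)⟩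
  have hcont : ∀ w ∈ HH, ContinuousOn (fun s => ψ s w) (Icc 0 h) := by
    intro w hw
    have : ContinuousOn (fun s : ℝ => ((s, w) : ℝ × ℂ)) (Icc 0 h) := by fun_prop
    exact hψ.cont.comp this (fun s hs => ⟨hs.1, hw⟩)
  have hmeas : ∀ w ∈ HH, AEStronglyMeasurable (fun s => ψ s w)
      ((volume : Measure ℝ).restrict (Ι 0 h)) := by
    intro w hw
    rw [uIoc_of_le hh.le]
    exact ((hcont w hw).mono Ioc_subset_Icc_self).aestronglyMeasurable measurableSet_Ioc
  have hmeas' : AEStronglyMeasurable (fun s => deriv (ψ s) z)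
      ((volume : Measure ℝ).restrict (Ι 0 h)) := by
    have hseq : Tendsto (fun n : ℕ => ((z.re / 4 / ((n : ℝ) + 1) : ℝ) : ℂ)) atTop (𝓝[≠] 0) := by
      rw [tendsto_nhdsWithin_iff]
      constructor
      · have h1 : Tendsto (fun n : ℕ => (z.re / 4) * (1 / ((n : ℝ) + 1))) atTop
            (𝓝 ((z.re / 4) * 0)) := tendsto_one_div_add_atTop_nhds_zero_nat.const_mul _
        rw [mul_zero] at h1
        have h2 : Tendsto (fun n : ℕ => (z.re / 4 / ((n : ℝ) + 1) : ℝ)) atTop (𝓝 0) := by
          refine h1.congr (fun n => ?_)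
          rw [mul_one_div]
        have h3 := (Complex.continuous_ofReal.tendsto 0).comp h2
        rw [Complex.ofReal_zero] at h3
        exact h3
      · filter_upwards with n
        simp only [mem_compl_iff, mem_singleton_iff, Complex.ofReal_eq_zero]
        positivity
    refine aestronglyMeasurable_of_tendsto_ae atTop
      (f := fun (n : ℕ) s => ((z.re / 4 / ((n : ℝ) + 1) : ℝ) : ℂ)⁻¹ •
        (ψ s (z + ((z.re / 4 / ((n : ℝ) + 1) : ℝ) : ℂ)) - ψ s z)) ?_ ?_
    · intro n
      have hmem : z + ((z.re / 4 / ((n : ℝ) + 1) : ℝ) : ℂ) ∈ HH := by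
        show 0 < (z + ((z.re / 4 / ((n : ℝ) + 1) : ℝ) : ℂ)).re
        rw [Complex.add_re, Complex.ofReal_re]; positivity
      have h1 := ((hmeas _ hmem).sub (hmeas z hz)).const_smul
        (((z.re / 4 / ((n : ℝ) + 1) : ℝ) : ℂ)⁻¹)
      exact h1
    · rw [ae_restrict_iff' measurableSet_uIoc]
      filter_upwards with s hs
      have hd := (hdiff s (hsub s hs).1 z hz).hasDerivAt
      rw [hasDerivAt_iff_tendsto_slope_zero] at hd
      exact hd.comp hseq
  have key := intervalIntegral.hasDerivAt_integral_of_dominated_loc_of_deriv_le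
    (μ := volume) (a := 0) (b := h) (F := fun w s => ψ s w) (F' := fun w s => deriv (ψ s) w)
    (x₀ := z) (s := Metric.ball z (z.re / 4)) (bound := fun _ => C / (z.re / 4))
    (Metric.ball_mem_nhds z (by positivity))
    (by
      filter_upwards [hopen.mem_nhds hz] with w hw
      exact hmeas w hw)
    (by
      apply ContinuousOn.intervalIntegrable
      rw [uIcc_of_le hh.le]; exact hcont z hz)
    hmeas'
    (by
      filter_upwards with s hs w hw
      exact hbound s (hsub s hs).1 (hsub s hs).2 w hw)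
    intervalIntegrable_const
    (by
      filter_upwards with s hs w hw
      have hw' : w ∈ HH := by
        apply hball
        have : dist w z < z.re / 4 := hw
        show dist w z ≤ z.re / 2
        linarith
      exact (hdiff s (hsub s hs).1 w hw').hasDerivAt)
  exact key.2.differentiableAt.differentiableWithinAt

end Pool.Agent.Q7.OS.TaskG1
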