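import Pool.Agent.Q7.OS.Stmts

/-!
For small `h` the derivative of the average does not vanish.
-/

set_option autoImplicit false

open Set Filter Topology Complex MeasureTheory

namespace Pool.Agent.Q7.OS.TaskG2

theorem main (h1 : TaskG1) : Pool.Agent.Q7.OS.TaskG2 := by
  intro ψ hψ z hz
  have hzr : 0 < z.re := hz
  obtain ⟨r, hr, hrz⟩ : ∃ r : ℝ, 0 < r ∧ Metric.closedBall z r ⊆ HH := by
    refine ⟨z.re / 2, by positivity, fun w hw => ?_⟩
    have h2 : ‖w - z‖ ≤ z.re / 2 := by rwa [Metric.mem_closedBall, dist_eq_norm] at hw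
    have h3 := (Complex.abs_re_le_norm (w - z)).trans h2
    rw [Complex.sub_re] at h3
    have h4 := (abs_le.1 h3).1
    change 0 < w.re
    linarith
  -- uniform closeness
  have hK : IsCompact (Icc (0 : ℝ) 1 ×ˢ Metric.closedBall z r) :=
    isCompact_Icc.prod (isCompact_closedBall z r)
  have hcont : ContinuousOn (fun q : ℝ × ℂ => ψ q.1 q.2) (Icc (0 : ℝ) 1 ×ˢ Metric.closedBall z r) :=
    hψ.cont.mono (prod_mono Icc_subset_Ici_self hrz)
  have huc := hK.uniformContinuousOn_of_continuous hcont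
  rw [Metric.uniformContinuousOn_iff] at huc
  obtain ⟨δ, hδ, hδ'⟩ := huc (r / 2) (by positivity)
  obtain ⟨h, hh0, hh1, hhδ⟩ : ∃ h : ℝ, 0 < h ∧ h ≤ 1 ∧ h < δ :=
    ⟨min 1 (δ / 2), by positivity, min_le_left _ _, (min_le_right _ _).trans_lt (by linarith)⟩
  have hclose : ∀ s ∈ Icc (0 : ℝ) h, ∀ w ∈ Metric.closedBall z r, ‖ψ s w - w‖ ≤ r / 2 := by
    intro s hs w hw
    have h2 := hδ' (s, w) ⟨⟨hs.1, hs.2.trans hh1⟩, hw⟩ (0, w) ⟨⟨le_rfl, zero_le_one⟩, hw⟩ (by
      rw [Prod.dist_eq, dist_self, max_eq_left dist_nonneg, Real.dist_eq, sub_zero,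
        abs_of_nonneg hs.1]
      exact hs.2.trans_lt hhδ)
    rw [dist_eq_norm] at h2
    simp only at h2
    rw [hψ.zero w (hrz hw)] at h2
    exact h2.le
  refine ⟨h, hh0, fun hder => ?_⟩
  have hF := h1 ψ hψ h hh0
  have hFd : DifferentiableAt ℂ (fun z => ∫ s in (0 : ℝ)..h, ψ s z) z := by
    apply hF.differentiableAt
    have hop : IsOpen HH := isOpen_lt continuous_const Complex.continuous_re
    exact hop.mem_nhds hz
  have hg : DifferentiableOn ℂ (fun w => (∫ s in (0 : ℝ)..h, ψ s w) - (h : ℂ) * w) HH :=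
    hF.sub ((differentiable_const _).mul differentiable_id).differentiableOn
  have hbound : ∀ w ∈ Metric.sphere z r,
      ‖(∫ s in (0 : ℝ)..h, ψ s w) - (h : ℂ) * w‖ ≤ r / 2 * h := by
    intro w hw
    have hw' : w ∈ Metric.closedBall z r := Metric.sphere_subset_closedBall hw
    have hci : ContinuousOn (fun s => ψ s w) (uIcc 0 h) := by
      rw [uIcc_of_le hh0.le]
      have h2 : ContinuousOn (fun s : ℝ => ((s, w) : ℝ × ℂ)) (Icc 0 h) := by fun_prop
      exact hψ.cont.comp h2 (fun s hs => ⟨hs.1, hrz hw'⟩)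
    have h3 : (∫ s in (0 : ℝ)..h, ψ s w) - (h : ℂ) * w = ∫ s in (0 : ℝ)..h, (ψ s w - w) := by
      rw [intervalIntegral.integral_sub hci.intervalIntegrable intervalIntegrable_const,
        intervalIntegral.integral_const, sub_zero]
      simp
    rw [h3]
    have h4 := intervalIntegral.norm_integral_le_of_norm_le_const (a := (0 : ℝ)) (b := h)
      (C := r / 2) (f := fun s => ψ s w - w) (fun s hs => by
        rw [uIoc_of_le hh0.le] at hs
        exact hclose s ⟨hs.1.le, hs.2⟩ w hw')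
    rw [sub_zero, abs_of_pos hh0] at h4
    exact h4
  have hcauchy := Complex.norm_deriv_le_of_forall_mem_sphere_norm_le hr
    (hg.diffContOnCl_ball hrz) hbound
  have hderiv : deriv (fun w => (∫ s in (0 : ℝ)..h, ψ s w) - (h : ℂ) * w) z = -(h : ℂ) := by
    have h5 : HasDerivAt (fun w : ℂ => (∫ s in (0 : ℝ)..h, ψ s w) - (h : ℂ) * w)
        (deriv (fun z => ∫ s in (0 : ℝ)..h, ψ s z) z - (h : ℂ) * 1) z :=
      hFd.hasDerivAt.sub ((hasDerivAt_id z).const_mul (h : ℂ))
    rw [h5.deriv, hder]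
    ring
  rw [hderiv, norm_neg, Complex.norm_real, Real.norm_eq_abs, abs_of_pos hh0] at hcauchy
  have h6 : r / 2 * h / r = h / 2 := by field_simp
  rw [h6] at hcauchy
  linarith

end Pool.Agent.Q7.OS.TaskG2
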