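import Mathlib
import Pool.Agent.Q7.OS.Stmts

open Set Filter Topology Complex MeasureTheory

namespace Pool.Agent.Q7.OS.TaskG3

open Pool.Agent.Q7.OS

theorem main : Pool.Agent.Q7.OS.TaskG3 := by
  intro ψ hψ h hh z hz hd
  set F : ℂ → ℂ := fun z => ∫ s in (0 : ℝ)..h, ψ s z with hF
  set φ : ℝ → ℂ := fun u => ψ (max u 0) z with hφ
  have hφc : Continuous φ := by
    have h1 : Continuous (fun u : ℝ => ((max u 0, z) : ℝ × ℂ)) := by fun_prop
    exact hψ.cont.comp_continuous h1 (fun u => ⟨(le_max_right u 0 : (0:ℝ) ≤ max u 0), hz⟩)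
  have hφt : ∀ t, 0 ≤ t → φ t = ψ t z := fun t ht => by simp only [hφ]; rw [max_eq_left ht]
  have hφ0 : φ 0 = z := by rw [hφt 0 le_rfl]; exact hψ.zero z hz
  have hg : ∀ t, 0 ≤ t → F (φ t) = ∫ u in t..(t + h), φ u := by
    intro t ht
    have e1 : F (φ t) = ∫ s in (0:ℝ)..h, φ (s + t) := by
      apply intervalIntegral.integral_congr
      intro s hs
      rw [uIcc_of_le hh.le] at hs
      have h2 := hψ.add t s ht hs.1 z hz
      show ψ s (φ t) = φ (s + t)
      rw [hφt t ht, hφt (s + t) (by linarith [hs.1])]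
      exact h2.symm
    rw [e1, intervalIntegral.integral_comp_add_right, zero_add, add_comm h t]
  set H : ℝ → ℂ := fun t => ∫ u in (0:ℝ)..t, φ u with hH
  have hHd : ∀ t, HasDerivAt H (φ t) t := fun t => (hφc.integral_hasStrictDerivAt 0 t).hasDerivAt
  set G : ℝ → ℂ := fun t => H (t + h) - H t with hG
  have hGeq : ∀ t, G t = ∫ u in t..(t + h), φ u := by
    intro t
    exact intervalIntegral.integral_interval_sub_left (hφc.intervalIntegrable _ _)
      (hφc.intervalIntegrable _ _)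
  have hGd : HasDerivAt G (φ h - φ 0) 0 := by
    have h1 : HasDerivAt (fun t => H (t + h)) (φ (0 + h)) 0 := (hHd (0 + h)).comp_add_const 0 h
    rw [zero_add] at h1
    exact h1.sub (hHd 0)
  have hslG : Tendsto (slope G 0) (𝓝[>] 0) (𝓝 (φ h - φ 0)) :=
    (hasDerivWithinAt_iff_tendsto_slope' (by simp)).1 hGd.hasDerivWithinAt
  have hdiff : DifferentiableAt ℂ F z := by
    by_contra hc
    exact hd (deriv_zero_of_not_differentiableAt hc)
  have hds : Tendsto (fun t => dslope F z (φ t)) (𝓝[>] 0) (𝓝 (deriv F z)) := by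
    have h1 : ContinuousAt (dslope F z) z := continuousAt_dslope_same.2 hdiff
    have h2 : ContinuousAt (fun t => dslope F z (φ t)) 0 := by
      apply ContinuousAt.comp
      · rw [hφ0]; exact h1
      · exact hφc.continuousAt
    have h3 := h2.tendsto.mono_left (nhdsWithin_le_nhds (s := Ioi 0))
    rw [hφ0, dslope_same] at h3
    exact h3
  have hkey : Tendsto (slope φ 0) (𝓝[>] 0) (𝓝 ((φ h - φ 0) / deriv F z)) := by
    refine (hslG.div hds hd).congr' ?_
    have hne : ∀ᶠ t in 𝓝[>] (0:ℝ), dslope F z (φ t) ≠ 0 := hds.eventually_ne hd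
    filter_upwards [hne, self_mem_nhdsWithin] with t ht ht0
    have ht0' : (0:ℝ) < t := ht0
    rw [Pi.div_apply, div_eq_iff ht]
    rw [slope_def_module, slope_def_module, hGeq t, hGeq 0, ← hg t ht0'.le, ← hg 0 le_rfl, hφ0,
      ← sub_smul_dslope F z (φ t), smul_eq_mul, smul_mul_assoc]
  have hfin : HasDerivWithinAt φ ((φ h - φ 0) / deriv F z) (Ici 0) 0 := by
    rw [← hasDerivWithinAt_Ioi_iff_Ici]
    exact (hasDerivWithinAt_iff_tendsto_slope' (by simp)).2 hkey
  rw [hφt h hh.le, hφ0] at hfin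
  refine hfin.congr ?_ ?_
  · intro t ht
    exact (hφt t ht).symm
  · exact (hφt 0 le_rfl).symm

end Pool.Agent.Q7.OS.TaskG3
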