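import Pool.Agent.Q7.OS.Stmts

set_option autoImplicit false

/-! TaskGen (helper329). -/

open Set Filter Topology Complex MeasureTheory

namespace Pool.Agent.Q7.OS.TaskGen

theorem isOpen_HH : IsOpen HH := isOpen_lt continuous_const Complex.continuous_re

theorem main (hG1 : TaskG1) (hG2 : TaskG2) (hG3 : TaskG3) : Pool.Agent.Q7.OS.TaskGen := by
  intro ψ hψ
  obtain ⟨F, hF⟩ : ∃ F : ℝ → ℂ → ℂ, F = fun h z => ∫ s in (0 : ℝ)..h, ψ s z := ⟨_, rfl⟩
  obtain ⟨G, hG⟩ : ∃ G : ℂ → ℂ, G = fun z => derivWithin (fun t => ψ t z) (Ici 0) 0 := ⟨_, rfl⟩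
  have hGd : ∀ h, 0 < h → ∀ z ∈ HH, deriv (F h) z ≠ 0 →
      HasDerivWithinAt (fun t => ψ t z) (G z) (Ici 0) 0 ∧
      G z = (ψ h z - z) / deriv (F h) z := by
    intro h hh z hz hne
    have h1 := hG3 ψ hψ h hh z hz (by rw [hF] at hne; exact hne)
    have h2 : G z = (ψ h z - z) / deriv (F h) z := by
      rw [hG, hF]
      exact h1.derivWithin (uniqueDiffWithinAt_Ici 0)
    refine ⟨?_, h2⟩
    rw [h2, hF]
    exact h1
  have hGz : ∀ z ∈ HH, HasDerivWithinAt (fun t => ψ t z) (G z) (Ici 0) 0 := by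
    intro z hz
    obtain ⟨h, hh, hne⟩ := hG2 ψ hψ z hz
    exact (hGd h hh z hz (by rw [hF]; exact hne)).1
  refine ⟨G, fun z hz => ?_, fun z hz t ht => ?_⟩
  · obtain ⟨h, hh, hne⟩ := hG2 ψ hψ z hz
    have hFd : DifferentiableOn ℂ (F h) HH := by
      rw [hF]
      exact hG1 ψ hψ h hh
    have hFd' : DifferentiableOn ℂ (deriv (F h)) HH := hFd.deriv isOpen_HH
    have hne' : deriv (F h) z ≠ 0 := by rw [hF]; exact hne
    have hz' : HH ∈ 𝓝 z := isOpen_HH.mem_nhds hz
    have hFa : DifferentiableAt ℂ (deriv (F h)) z := hFd'.differentiableAt hz'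
    have hev : ∀ᶠ y in 𝓝 z, deriv (F h) y ≠ 0 := hFa.continuousAt.eventually_ne hne'
    have heq : G =ᶠ[𝓝 z] fun y => (ψ h y - y) / deriv (F h) y := by
      filter_upwards [hev, hz'] with y hy1 hy2
      exact (hGd h hh y hy2 hy1).2
    have hψa : DifferentiableAt ℂ (ψ h) z := (hψ.holo h hh.le).differentiableAt hz'
    have hd : DifferentiableAt ℂ (fun y => (ψ h y - y) / deriv (F h) y) z :=
      (hψa.sub differentiableAt_id).div hFa hne'
    exact (hd.congr_of_eventuallyEq heq).differentiableWithinAt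
  · have hy : ψ t z ∈ HH := hψ.maps t ht z hz
    have h1 := hGz (ψ t z) hy
    have h2 : HasDerivWithinAt (fun s : ℝ => s - t) 1 (Ici t) t :=
      ((hasDerivAt_id t).sub_const t).hasDerivWithinAt
    have h0 : (fun s : ℝ => s - t) t = 0 := sub_self t
    have h3 : MapsTo (fun s : ℝ => s - t) (Ici t) (Ici 0) := by
      intro s hs
      have hs' : t ≤ s := hs
      show (0 : ℝ) ≤ s - t
      linarith
    have h4 : HasDerivWithinAt (fun u => ψ u (ψ t z)) (G (ψ t z)) (Ici 0)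
        ((fun s : ℝ => s - t) t) := by
      rw [h0]
      exact h1
    have h5 := HasDerivWithinAt.scomp (h := fun s : ℝ => s - t)
      (g₁ := fun u : ℝ => ψ u (ψ t z)) t h4 h2 h3
    rw [one_smul] at h5
    refine h5.congr (fun s hs => ?_) ?_
    · have h6 := hψ.add t (s - t) ht (sub_nonneg.mpr hs) z hz
      rw [sub_add_cancel] at h6
      exact h6
    · have h6 := hψ.add t 0 ht (le_refl 0) z hz
      rw [zero_add] at h6
      show ψ t z = ψ (t - t) (ψ t z)
      rw [sub_self]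
      exact h6

end Pool.Agent.Q7.OS.TaskGen
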