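import Pool.Agent.Q7.OS.Stmts

set_option autoImplicit false

/-! `MP_0641e2_an` blueprint: Julia-Wolff step. -/

open Set Filter Topology Complex MeasureTheory

namespace Pool.Agent.Q7.OS.TaskJW

open Pool.Agent.Q7.OS

theorem ratio (c : ℂ) (u : ℕ → ℂ) (hu : Tendsto (fun n => ‖u n‖) atTop atTop) :
    Tendsto (fun n => ‖c - u n‖ / ‖u n‖) atTop (𝓝 1) := by
  have h0 : Tendsto (fun n => ‖c‖ / ‖u n‖) atTop (𝓝 0) := hu.const_div_atTop _
  rw [tendsto_iff_norm_sub_tendsto_zero]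
  refine squeeze_zero' (Eventually.of_forall fun n => norm_nonneg _) ?_ h0
  filter_upwards [hu.eventually_gt_atTop 0] with n hn
  have e : ‖c - u n‖ / ‖u n‖ - 1 = (‖c - u n‖ - ‖u n‖) / ‖u n‖ := by
    field_simp
  rw [e, Real.norm_eq_abs, abs_div, abs_of_pos hn]
  apply div_le_div_of_nonneg_right _ hn.le
  have := abs_norm_sub_norm_le (c - u n) (-(u n))
  rw [norm_neg] at this
  simpa using this

theorem main (h : TaskSP) : Pool.Agent.Q7.OS.TaskJW := by
  intro f hf hfp zn hzn hstep hinf z hz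
  by_contra hcon
  rw [not_le] at hcon
  have hinf' : Tendsto (fun n => ‖zn (n + 1)‖) atTop atTop := hinf.comp (tendsto_add_atTop_nat 1)
  set q : ℕ → ℝ := fun n => ‖zn n‖ ^ 2 / (zn n).re with hq
  have hre : ∀ n, 0 < (zn n).re := fun n => hzn n
  have hn0 : ∀ n, 0 < ‖zn n‖ := fun n => lt_of_lt_of_le (hre n) (Complex.re_le_norm _)
  have hqpos : ∀ n, 0 < q n := fun n => by
    simp only [hq]
    have := hre n
    have := hn0 n
    positivity
  have hqge : ∀ n, ‖zn n‖ ≤ q n := fun n => by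
    simp only [hq]
    rw [le_div_iff₀ (hre n), sq]
    exact mul_le_mul_of_nonneg_left (Complex.re_le_norm _) (norm_nonneg _)
  have hqinf : Tendsto q atTop atTop := tendsto_atTop_mono hqge hinf
  -- the two ratios
  have hA : Tendsto (fun n => (‖f z - zn (n + 1)‖ / ‖zn (n + 1)‖) ^ 2 * z.re) atTop
      (𝓝 (1 ^ 2 * z.re)) := ((ratio (f z) (fun n => zn (n + 1)) hinf').pow 2).mul_const _
  have hB : Tendsto (fun n => (‖z - zn n‖ / ‖zn n‖) ^ 2 * (f z).re) atTop
      (𝓝 (1 ^ 2 * (f z).re)) := ((ratio z zn hinf).pow 2).mul_const _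
  have hev : ∀ᶠ n in atTop, (‖z - zn n‖ / ‖zn n‖) ^ 2 * (f z).re <
      (‖f z - zn (n + 1)‖ / ‖zn (n + 1)‖) ^ 2 * z.re :=
    hB.eventually_lt hA (by simpa using hcon)
  have hdec : ∀ᶠ n in atTop, q (n + 1) ≤ q n := by
    filter_upwards [hev] with n hn
    have hsp := h f hf hfp z hz (zn n) (hzn n)
    rw [← hstep n] at hsp
    have h1 := hre n
    have h2 := hre (n + 1)
    have h3 := hn0 n
    have h4 := hn0 (n + 1)
    -- divide by `re zn n * re zn (n+1)`
    have key : (‖f z - zn (n + 1)‖ / ‖zn (n + 1)‖) ^ 2 * z.re * q (n + 1) ≤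
        (‖z - zn n‖ / ‖zn n‖) ^ 2 * (f z).re * q n := by
      have e1 : (‖f z - zn (n + 1)‖ / ‖zn (n + 1)‖) ^ 2 * z.re * q (n + 1) =
          ‖f z - zn (n + 1)‖ ^ 2 * (z.re * (zn n).re) / ((zn n).re * (zn (n + 1)).re) := by
        simp only [hq]
        field_simp
      have e2 : (‖z - zn n‖ / ‖zn n‖) ^ 2 * (f z).re * q n =
          ‖z - zn n‖ ^ 2 * ((f z).re * (zn (n + 1)).re) / ((zn n).re * (zn (n + 1)).re) := by
        simp only [hq]
        field_simp
      rw [e1, e2]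
      exact div_le_div_of_nonneg_right hsp (by positivity)
    have hfz : 0 < (f z).re := hfp z hz
    have hBnn : 0 ≤ (‖z - zn n‖ / ‖zn n‖) ^ 2 * (f z).re := by positivity
    have hApos : 0 < (‖f z - zn (n + 1)‖ / ‖zn (n + 1)‖) ^ 2 * z.re := lt_of_le_of_lt hBnn hn
    by_contra hlt
    rw [not_le] at hlt
    have c1 : (‖z - zn n‖ / ‖zn n‖) ^ 2 * (f z).re * q n <
        (‖f z - zn (n + 1)‖ / ‖zn (n + 1)‖) ^ 2 * z.re * q n :=
      mul_lt_mul_of_pos_right hn (hqpos n)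
    have c2 : (‖f z - zn (n + 1)‖ / ‖zn (n + 1)‖) ^ 2 * z.re * q n <
        (‖f z - zn (n + 1)‖ / ‖zn (n + 1)‖) ^ 2 * z.re * q (n + 1) :=
      mul_lt_mul_of_pos_left hlt hApos
    linarith
  obtain ⟨N, hN⟩ := eventually_atTop.mp hdec
  have hbd : ∀ n, N ≤ n → q n ≤ q N := by
    intro n hn
    induction n, hn using Nat.le_induction with
    | base => exact le_rfl
    | succ n hn ih => exact (hN n hn).trans ih
  obtain ⟨n, hn1, hn2⟩ := ((hqinf.eventually_gt_atTop (q N)).and (eventually_ge_atTop N)).exists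
  linarith [hbd n hn2]

end Pool.Agent.Q7.OS.TaskJW
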