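import Pool.Agent.Q7.OS.Stmts

/-! `TaskMain`: the main inequality. -/

open Set Filter Topology Complex MeasureTheory

namespace Pool.Agent.Q7.OS.TaskMain

theorem main (h : Pool.Agent.Q7.OS.TaskSPD) : Pool.Agent.Q7.OS.TaskMain := by
  intro p hp hpos w hw hw1 hint
  have hopen : IsOpen HH := isOpen_lt continuous_const Complex.continuous_re
  set δ : ℂ := w - 1 with hδ
  have ha : 0 < δ.re := by
    rw [hδ, Complex.sub_re, Complex.one_re]
    linarith
  have hvre : ∀ σ : ℝ, (1 + (σ : ℂ) * δ).re = 1 + σ * δ.re := by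
    intro σ
    simp
  have hv : ∀ σ ∈ Icc (0 : ℝ) 1, (1 + (σ : ℂ) * δ) ∈ HH := by
    intro σ hσ
    have h1 := mul_nonneg hσ.1 ha.le
    show 0 < (1 + (σ : ℂ) * δ).re
    rw [hvre]
    linarith
  have hd : ∀ v ∈ HH, HasDerivAt p (deriv p v) v := fun v hv =>
    (hp.differentiableAt (hopen.mem_nhds hv)).hasDerivAt
  have he : ∀ σ ∈ Icc (0 : ℝ) 1,
      HasDerivAt (fun x : ℝ => (((x : ℂ) * (δ * p (1 + (x : ℂ) * δ))).re))
        ((δ * p (1 + (σ : ℂ) * δ) + (σ : ℂ) * (δ * (deriv p (1 + (σ : ℂ) * δ) * δ))).re) σ := by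
    intro σ hσ
    have h1 : HasDerivAt (fun z : ℂ => 1 + z * δ) δ (σ : ℂ) := by
      simpa using ((hasDerivAt_id (σ : ℂ)).mul_const δ).const_add 1
    have h2 : HasDerivAt (fun z : ℂ => p (1 + z * δ)) (deriv p (1 + (σ : ℂ) * δ) * δ) (σ : ℂ) :=
      (hd _ (hv σ hσ)).comp (σ : ℂ) h1
    have h3 : HasDerivAt (fun z : ℂ => z * (δ * p (1 + z * δ)))
        (1 * (δ * p (1 + (σ : ℂ) * δ)) + (σ : ℂ) * (δ * (deriv p (1 + (σ : ℂ) * δ) * δ)))
        (σ : ℂ) :=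
      (hasDerivAt_id (σ : ℂ)).mul (h2.const_mul δ)
    rw [one_mul] at h3
    exact h3.real_of_complex
  have hc1 : ContinuousOn (fun σ : ℝ => (1 + (σ : ℂ) * δ)) (Icc 0 1) := by fun_prop
  have hcp : ContinuousOn (fun σ : ℝ => p (1 + (σ : ℂ) * δ)) (Icc 0 1) :=
    hp.continuousOn.comp hc1 hv
  have hcd : ContinuousOn (fun σ : ℝ => deriv p (1 + (σ : ℂ) * δ)) (Icc 0 1) :=
    (hp.deriv hopen).continuousOn.comp hc1 hv
  have hce : ContinuousOn (fun σ : ℝ =>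
      (δ * p (1 + (σ : ℂ) * δ) + (σ : ℂ) * (δ * (deriv p (1 + (σ : ℂ) * δ) * δ))).re) (Icc 0 1) := by
    refine Complex.continuous_re.comp_continuousOn ?_
    have hs : ContinuousOn (fun σ : ℝ => (σ : ℂ)) (Icc (0 : ℝ) 1) := by fun_prop
    exact (continuousOn_const.mul hcp).add
      (hs.mul (continuousOn_const.mul (hcd.mul continuousOn_const)))
  have hci : ContinuousOn (fun σ : ℝ => (δ * p (1 + (σ : ℂ) * δ)).im) (Icc 0 1) :=
    Complex.continuous_im.comp_continuousOn (continuousOn_const.mul hcp)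
  have hu : uIcc (0 : ℝ) 1 = Icc 0 1 := uIcc_of_le zero_le_one
  have hie : IntervalIntegrable (fun σ : ℝ =>
      (δ * p (1 + (σ : ℂ) * δ) + (σ : ℂ) * (δ * (deriv p (1 + (σ : ℂ) * δ) * δ))).re)
      volume 0 1 := by
    apply ContinuousOn.intervalIntegrable
    rw [hu]; exact hce
  have hii : IntervalIntegrable (fun σ : ℝ => (δ * p (1 + (σ : ℂ) * δ)).im) volume 0 1 := by
    apply ContinuousOn.intervalIntegrable
    rw [hu]; exact hci
  have hF := intervalIntegral.integral_eq_sub_of_hasDerivAt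
    (f := fun x : ℝ => (((x : ℂ) * (δ * p (1 + (x : ℂ) * δ))).re))
    (f' := fun σ : ℝ =>
      (δ * p (1 + (σ : ℂ) * δ) + (σ : ℂ) * (δ * (deriv p (1 + (σ : ℂ) * δ) * δ))).re)
    (a := 0) (b := 1) (by rw [hu]; exact he) hie
  have hw1' : (1 : ℂ) + ((1 : ℝ) : ℂ) * δ = w := by
    rw [hδ]; push_cast; ring
  have hend : (((1 : ℝ) : ℂ) * (δ * p (1 + ((1 : ℝ) : ℂ) * δ))).re = (δ * p w).re := by
    rw [hw1', Complex.ofReal_one, one_mul]
  have hst : (((0 : ℝ) : ℂ) * (δ * p (1 + ((0 : ℝ) : ℂ) * δ))).re = 0 := by simp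
  beta_reduce at hF
  rw [hend, hst, sub_zero] at hF
  have hsum : ∫ σ in (0 : ℝ)..1, (δ.re *
      (δ * p (1 + (σ : ℂ) * δ) + (σ : ℂ) * (δ * (deriv p (1 + (σ : ℂ) * δ) * δ))).re +
      δ.im * (δ * p (1 + (σ : ℂ) * δ)).im) = δ.re * (δ * p w).re := by
    rw [intervalIntegral.integral_add (hie.const_mul _) (hii.const_mul _),
      intervalIntegral.integral_const_mul, intervalIntegral.integral_const_mul, hF, hint,
      mul_zero, add_zero]
  have hnn : 0 ≤ ∫ σ in (0 : ℝ)..1, (δ.re *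
      (δ * p (1 + (σ : ℂ) * δ) + (σ : ℂ) * (δ * (deriv p (1 + (σ : ℂ) * δ) * δ))).re +
      δ.im * (δ * p (1 + (σ : ℂ) * δ)).im) := by
    apply intervalIntegral.integral_nonneg zero_le_one
    intro σ hσ
    have hv' := hv σ hσ
    have hP := h p hp hpos _ hv'
    have hpp := hpos _ hv'
    rw [hvre] at hP
    set v : ℂ := 1 + (σ : ℂ) * δ with hvdef
    have hσ0 := hσ.1
    have hx : 0 ≤ σ * δ.re := mul_nonneg hσ0 ha.le
    -- lower bound of the derivative term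
    have hb : -(‖δ‖ ^ 2 * ‖deriv p v‖) ≤ (δ * (deriv p v * δ)).re := by
      have h1 : |(δ * (deriv p v * δ)).re| ≤ ‖δ * (deriv p v * δ)‖ := Complex.abs_re_le_norm _
      have h2 : ‖δ * (deriv p v * δ)‖ = ‖δ‖ ^ 2 * ‖deriv p v‖ := by
        rw [norm_mul, norm_mul]; ring
      rw [h2] at h1
      exact (abs_le.1 h1).1
    have hn : ‖δ‖ ^ 2 = δ.re ^ 2 + δ.im ^ 2 := by
      rw [← Complex.normSq_eq_norm_sq, Complex.normSq_apply]; ring
    have hid : δ.re * (δ * p v + (σ : ℂ) * (δ * (deriv p v * δ))).re + δ.im * (δ * p v).im =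
        ‖δ‖ ^ 2 * (p v).re + σ * δ.re * (δ * (deriv p v * δ)).re := by
      rw [Complex.add_re, Complex.re_ofReal_mul, hn, Complex.mul_re δ (p v),
        Complex.mul_im δ (p v)]
      ring
    rw [hid]
    have hq : σ * δ.re * ‖deriv p v‖ ≤ (p v).re := by
      have h3 : 0 ≤ ‖deriv p v‖ := norm_nonneg _
      nlinarith
    have hδ2 : 0 ≤ ‖δ‖ ^ 2 := sq_nonneg _
    calc (0 : ℝ) ≤ ‖δ‖ ^ 2 * ((p v).re - σ * δ.re * ‖deriv p v‖) :=
          mul_nonneg hδ2 (by linarith)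
      _ = ‖δ‖ ^ 2 * (p v).re + σ * δ.re * (-(‖δ‖ ^ 2 * ‖deriv p v‖)) := by ring
      _ ≤ ‖δ‖ ^ 2 * (p v).re + σ * δ.re * (δ * (deriv p v * δ)).re := by
          have := mul_le_mul_of_nonneg_left hb hx
          linarith
  rw [hsum] at hnn
  by_contra hcon
  push Not at hcon
  have := mul_neg_of_pos_of_neg ha hcon
  linarith

end Pool.Agent.Q7.OS.TaskMain
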