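import Pool.Agent.Q7.OS.Stmts

set_option autoImplicit false

namespace Pool.Agent.Q7.OS.TaskOpen

open Set Filter Topology Complex
open Pool.Agent.Q7.OS

theorem main : Pool.Agent.Q7.OS.TaskOpen := by
  intro G hG h0
  have hopen : IsOpen HH := isOpen_lt continuous_const Complex.continuous_re
  have hpre : IsPreconnected HH := (convex_halfSpace_re_gt 0).isPreconnected
  rcases (hG.analyticOnNhd hopen).is_constant_or_isOpen hpre with ⟨c, hc⟩ | h
  · have h1 : (1 : ℂ) ∈ HH := by simp [HH]
    have h2 : 0 ≤ c.re := by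
      have := h0 1 h1
      rwa [hc 1 h1] at this
    rcases h2.eq_or_lt with h3 | h3
    · exact Or.inr ⟨c, h3.symm, hc⟩
    · refine Or.inl fun z hz => ?_
      rw [hc z hz]
      exact h3
  · left
    have h1 : G '' HH ⊆ {w : ℂ | 0 ≤ w.re} := by
      rintro _ ⟨z, hz, rfl⟩
      exact h0 z hz
    have h2 := interior_maximal h1 (h HH Subset.rfl hopen)
    rw [Complex.interior_setOf_le_re] at h2
    exact fun z hz => h2 ⟨z, hz, rfl⟩

end Pool.Agent.Q7.OS.TaskOpen
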