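import Pool.Agent.Q7.OS.Stmts

set_option autoImplicit false

open Set Filter Topology Complex MeasureTheory Metric

namespace Pool.Agent.Q7.OS.TaskSP

theorem norm_add_conj (a b : ℂ) :
    ‖a + (starRingEnd ℂ) b‖ ^ 2 = ‖a - b‖ ^ 2 + 4 * (a.re * b.re) := by
  simp only [← Complex.normSq_eq_norm_sq, Complex.normSq_apply, Complex.sub_re, Complex.sub_im,
    Complex.add_re, Complex.add_im, Complex.conj_re, Complex.conj_im]
  ring

theorem add_conj_ne (a b : ℂ) (ha : 0 < a.re) (hb : 0 < b.re) : a + (starRingEnd ℂ) b ≠ 0 := by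
  intro h
  have := congrArg Complex.re h
  simp at this
  linarith

theorem quot_lt (a b : ℂ) (ha : 0 < a.re) (hb : 0 < b.re) :
    ‖(a - b) / (a + (starRingEnd ℂ) b)‖ < 1 := by
  rw [norm_div, div_lt_one (norm_pos_iff.mpr (add_conj_ne a b ha hb))]
  have h := norm_add_conj a b
  have h2 : 0 < a.re * b.re := mul_pos ha hb
  exact lt_of_pow_lt_pow_left₀ 2 (norm_nonneg _) (by linarith)

theorem cay_re (w u : ℂ) (hw : 0 < w.re) (hu : ‖u‖ < 1) :
    0 < ((w + (starRingEnd ℂ) w * u) / (1 - u)).re := by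
  have hne : (1 - u) ≠ 0 := by
    intro h
    have : u = 1 := by linear_combination -h
    rw [this] at hu
    simp at hu
  have hN : 0 < Complex.normSq (1 - u) := Complex.normSq_pos.2 hne
  have hsq : Complex.normSq u < 1 := by
    rw [Complex.normSq_eq_norm_sq]
    nlinarith [norm_nonneg u]
  rw [Complex.div_re, ← add_div]
  apply div_pos _ hN
  have e : (w + (starRingEnd ℂ) w * u).re * (1 - u).re +
      (w + (starRingEnd ℂ) w * u).im * (1 - u).im = w.re * (1 - Complex.normSq u) := by
    simp only [Complex.normSq_apply, Complex.sub_re, Complex.sub_im, Complex.add_re,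
      Complex.add_im, Complex.mul_re, Complex.mul_im, Complex.one_re, Complex.one_im,
      Complex.conj_re, Complex.conj_im]
    ring
  rw [e]
  exact mul_pos hw (by linarith)

theorem main : Pool.Agent.Q7.OS.TaskSP := by
  intro f hf hpos z hz w hw
  have hz' : 0 < z.re := hz
  have hw' : 0 < w.re := hw
  set ψ : ℂ → ℂ := fun u => (w + (starRingEnd ℂ) w * u) / (1 - u) with hψdef
  have hψ : ∀ u, ‖u‖ < 1 → ψ u ∈ HH := fun u hu => cay_re w u hw' hu
  have h1u : ∀ u : ℂ, ‖u‖ < 1 → (1 - u) ≠ 0 := by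
    intro u hu h
    have : u = 1 := by linear_combination -h
    rw [this] at hu
    simp at hu
  have hψd : DifferentiableOn ℂ ψ (ball 0 1) := by
    apply DifferentiableOn.div
    · fun_prop
    · fun_prop
    · intro u hu
      exact h1u u (by simpa using hu)
  set F : ℂ → ℂ := fun u => (f (ψ u) - f w) / (f (ψ u) + (starRingEnd ℂ) (f w)) with hFdef
  have hFd : DifferentiableOn ℂ F (ball 0 1) := by
    have hc : DifferentiableOn ℂ (fun u => f (ψ u)) (ball 0 1) :=
      hf.comp hψd (fun u hu => hψ u (by simpa using hu))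
    apply DifferentiableOn.div
    · exact hc.sub_const _
    · exact hc.add_const _
    · intro u hu
      exact add_conj_ne _ _ (hpos _ (hψ u (by simpa using hu))) (hpos w hw)
  have hF0 : F 0 = 0 := by
    have h0 : ψ 0 = w := by simp [hψdef]
    show (f (ψ 0) - f w) / _ = 0
    rw [h0, sub_self, zero_div]
  have hFm : MapsTo F (ball 0 1) (closedBall 0 1) := by
    intro u hu
    rw [mem_closedBall_zero_iff]
    exact (quot_lt _ _ (hpos _ (hψ u (by simpa using hu))) (hpos w hw)).le
  have hlt : ‖(z - w) / (z + (starRingEnd ℂ) w)‖ < 1 := quot_lt z w hz' hw'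
  have hD : z + (starRingEnd ℂ) w ≠ 0 := add_conj_ne z w hz' hw'
  have hψz : ψ ((z - w) / (z + (starRingEnd ℂ) w)) = z := by
    obtain ⟨v, hv⟩ : ∃ v, v = (z - w) / (z + (starRingEnd ℂ) w) := ⟨_, rfl⟩
    rw [← hv] at hlt ⊢
    have hmul : v * (z + (starRingEnd ℂ) w) = z - w := by
      rw [hv]; exact div_mul_cancel₀ _ hD
    show (w + (starRingEnd ℂ) w * v) / (1 - v) = z
    rw [div_eq_iff (h1u v hlt)]
    linear_combination hmul
  have hS := Complex.norm_le_norm_of_mapsTo_ball hFd hFm hF0 hlt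
  have hFz : F ((z - w) / (z + (starRingEnd ℂ) w)) =
      (f z - f w) / (f z + (starRingEnd ℂ) (f w)) := by
    show (f (ψ _) - f w) / (f (ψ _) + _) = _
    rw [hψz]
  have hD' : f z + (starRingEnd ℂ) (f w) ≠ 0 := add_conj_ne _ _ (hpos z hz) (hpos w hw)
  rw [hFz, norm_div, norm_div, div_le_div_iff₀ (norm_pos_iff.mpr hD')
    (norm_pos_iff.mpr hD)] at hS
  have hS2 := pow_le_pow_left₀ (by positivity) hS 2
  rw [mul_pow, mul_pow, norm_add_conj, norm_add_conj] at hS2
  nlinarith

end Pool.Agent.Q7.OS.TaskSP
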