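import Pool.Agent.Q7.OS.Stmts

/-! Schwarz-Pick on the half-plane, derivative version. -/

open Set Filter Topology Complex MeasureTheory

namespace Pool.Agent.Q7.OS.TaskSPD

theorem main (h : TaskSP) : Pool.Agent.Q7.OS.TaskSPD := by
  intro f hf hpos z hz
  have hopen : IsOpen HH := isOpen_lt continuous_const Complex.continuous_re
  have hd : DifferentiableAt ℂ f z := hf.differentiableAt (hopen.mem_nhds hz)
  have hs : Tendsto (slope f z) (𝓝[≠] z) (𝓝 (deriv f z)) :=
    hasDerivAt_iff_tendsto_slope.1 hd.hasDerivAt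
  have hre : Tendsto (fun w : ℂ => w.re) (𝓝[≠] z) (𝓝 z.re) :=
    (Complex.continuous_re.tendsto z).mono_left nhdsWithin_le_nhds
  have hfre : Tendsto (fun w : ℂ => (f w).re) (𝓝[≠] z) (𝓝 (f z).re) :=
    ((Complex.continuous_re.continuousAt).comp hd.continuousAt).tendsto.mono_left
      nhdsWithin_le_nhds
  have h1 : Tendsto (fun w => ‖slope f z w‖ ^ 2 * (z.re * w.re)) (𝓝[≠] z)
      (𝓝 (‖deriv f z‖ ^ 2 * (z.re * z.re))) :=
    (hs.norm.pow 2).mul (tendsto_const_nhds.mul hre)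
  have h2 : Tendsto (fun w => (f z).re * (f w).re) (𝓝[≠] z) (𝓝 ((f z).re * (f z).re)) :=
    tendsto_const_nhds.mul hfre
  have h3 : ∀ᶠ w in 𝓝[≠] z, ‖slope f z w‖ ^ 2 * (z.re * w.re) ≤ (f z).re * (f w).re := by
    have hm : ∀ᶠ w in 𝓝[≠] z, w ∈ HH := nhdsWithin_le_nhds (hopen.mem_nhds hz)
    filter_upwards [hm, self_mem_nhdsWithin] with w hw hne
    have hne' : w - z ≠ 0 := sub_ne_zero.2 hne
    have hn : 0 < ‖w - z‖ ^ 2 := by positivity
    have key := h f hf hpos z hz w hw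
    rw [norm_sub_rev (f z), norm_sub_rev z] at key
    rw [slope_def_field, norm_div, div_pow, div_mul_eq_mul_div, div_le_iff₀ hn]
    linarith
  have h4 := le_of_tendsto_of_tendsto h1 h2 h3
  have hz' : 0 < z.re := hz
  have h5 := hpos z hz
  have h6 : (‖deriv f z‖ * z.re) ^ 2 ≤ (f z).re ^ 2 := by nlinarith [h4]
  exact (sq_le_sq₀ (by positivity) h5.le).1 h6

end Pool.Agent.Q7.OS.TaskSPD
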